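import Pool.Agent.Lib.EqGamma.GFinal

/-!
Every action of an amenable discrete group on a unital C-star algebra with uniform property Gamma
has equivariant uniform property Gamma.
-/

namespace Pool.Agent.Results.MP_ba6511_an.EquivGamma

open Pool.Agent.Lib.EqGamma

theorem result {G : Type*} [Group G] (hG : AmenableGroup G) {A : Type*} [CStarAlgebra A]
    [PartialOrder A] [StarOrderedRing A] (hA : UniformGamma A) (α : G →* (A ≃⋆ₐ[ℂ] A)) :
    EquivUniformGamma α :=
  equivUniformGamma hG hA α

end Pool.Agent.Results.MP_ba6511_an.EquivGamma
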