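import Pool.Agent.Lib.EJS.Bridge
import Pool.Agent.Lib.EJZ.Lift
import Pool.Agent.Lib.EJZ.Uniq

/-!
There is, up to isomorphism, exactly one C-star algebra `Z` with the properties `IsJiangSu` (the
Jiang-Su algebra), and every action of a countable discrete amenable group on a unital simple
separable nuclear `Z`-stable C-star algebra is equivariantly `Z`-stable, that is, cocycle conjugate
to its tensor product with the trivial action on `Z`.
-/

namespace Pool.Agent.Results.MP_ba6511_an.EquivZStability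

open Pool.Agent.Lib.EJSStmt

universe u v

theorem result : ∃ (Z : Type u) (_ : CStarAlgebra Z), IsJiangSu Z ∧
    (∀ (Y : Type u) [CStarAlgebra Y], IsJiangSu Y → ∃ e : Hom Y Z, Function.Bijective e) ∧
    ∀ (A : Type u) [CStarAlgebra A] [TopologicalSpace.SeparableSpace A] [IsSimpleRing A],
      IsNuclear A → ZStable Z A → ∀ (G : Type v) [Group G] [Countable G], AmenableGroup G →
      ∀ α : Action G A, EquivZStable Z α := by
  obtain ⟨Z, _, hZ⟩ := Pool.Agent.Lib.EJZ.exists_jiangSu_univ.{u}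
  refine ⟨Z, inferInstance, Pool.Agent.Lib.EJS.isJiangSu_iff.2 hZ, ?_, ?_⟩
  · intro Y _ hY
    obtain ⟨e⟩ := Pool.Agent.Lib.EJZ.isJiangSu_unique (Pool.Agent.Lib.EJS.isJiangSu_iff.1 hY) hZ
    exact ⟨(e : Y →⋆ₐ[ℂ] Z), e.bijective⟩
  · intro A _ _ _ hN hA G _ _ hG α
    exact (Pool.Agent.Lib.EJS.equivZStable_iff Z α).2
      (Pool.Agent.Lib.EJS.equivZStable hZ (Pool.Agent.Lib.EJS.isNuclear_iff.1 hN)
        (Pool.Agent.Lib.EJS.zStable_iff.1 hA) (Pool.Agent.Lib.EJS.amenableGroup_iff.1 hG) α)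

end Pool.Agent.Results.MP_ba6511_an.EquivZStability
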